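import Pool.Agent.Lib.MP_6d85b4_al.Roots

set_option autoImplicit false
set_option linter.unusedSectionVars false

/-! Definitions and statements of the pure Coxeter part of the hearts line. -/

namespace Pool.Agent.HS

open Pool.Agent.Lib.MP_6d85b4_al CoxeterSystem

variable {J : Type} [Fintype J] [DecidableEq J] (M : CoxeterMatrix J)

/-- linear functionals on the root space -/
abbrev Fn (J : Type) : Type := (J → ℝ) →ₗ[ℝ] ℝ

/-- simple reflection -/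
abbrev sr (s : J) : M.Group := M.toCoxeterSystem.simple s

/-- length -/
noncomputable abbrev len (w : M.Group) : ℕ := M.toCoxeterSystem.length w

/-- the canonical form, `Bm (al s) (al s) = 2` -/
noncomputable def Bm (x y : J → ℝ) : ℝ := - bf M x y

/-- the simple root `s` of the chamber `w` -/
noncomputable def rt (w : M.Group) (s : J) : J → ℝ := rho M w (al s)

def IsRoot (v : J → ℝ) : Prop := ∃ w s, v = rt M w s

/-- `v` is a nonnegative combination of the simple roots of the chamber `w` -/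
def PosAt (w : M.Group) (v : J → ℝ) : Prop := Pos (rho M w⁻¹ v)

/-- `θ` lies in the closed chamber `w` -/
def Ch (θ : Fn J) (w : M.Group) : Prop := ∀ s, 0 ≤ θ (rt M w s)

/-- the Tits cone -/
def Tits (θ : Fn J) : Prop := ∃ w, Ch M θ w

/-- standard parabolic subgroup -/
def WL (L : Set J) : Subgroup M.Group := Subgroup.closure (sr M '' L)

/-- height -/
def ht (v : J → ℝ) : ℝ := ∑ s, v s

/-- support inside `L` -/
def Supp (L : Set J) (v : J → ℝ) : Prop := ∀ s, s ∉ L → v s = 0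

/-- `L` is connected in the Coxeter graph -/
def ConnL (L : Set J) : Prop :=
  ∀ s ∈ L, ∀ t ∈ L, Relation.ReflTransGen (fun a b => a ∈ L ∧ b ∈ L ∧ M a b ≠ 2) s t

/-- discreteness of the roots -/
def Disc : Prop := ∀ R : ℝ, {v | IsRoot M v ∧ Pos v ∧ ht v ≤ R}.Finite

def PD (L : Set J) : Prop := ∀ v, Supp L v → v ≠ 0 → 0 < Bm M v v

def PSD : Prop := ∀ v, 0 ≤ Bm M v v

/-- `δ` is a positive radical vector of `L` -/
def Aff (L : Set J) (δ : J → ℝ) : Prop :=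
  Supp L δ ∧ ∀ s ∈ L, 0 < δ s ∧ Bm M δ (al s) = 0

/-- `z` is a positive strictly antidominant vector of `L` -/
def Ind (L : Set J) (z : J → ℝ) : Prop :=
  Supp L z ∧ ∀ s ∈ L, 0 < z s ∧ Bm M z (al s) < 0

/-- the interior point of the chamber `w` -/
noncomputable def rhoF (w : M.Group) : Fn J :=
  (∑ s, LinearMap.proj s : Fn J) ∘ₗ rho M w⁻¹

/-- the vertex `u` of the chamber `w` -/
noncomputable def omF (w : M.Group) (u : J) : Fn J :=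
  (LinearMap.proj u : Fn J) ∘ₗ rho M w⁻¹

/-- rank of the Gram matrix -/
noncomputable def rk : ℕ := (Matrix.of fun s t : J => Bm M (al s) (al t)).rank

/-- restriction of a Coxeter matrix to a subset -/
def subM (L : Set J) : CoxeterMatrix L where
  M := Matrix.of fun s t => M s t
  isSymm := by ext s t; exact M.symmetric t s
  diagonal s := M.diagonal s
  off_diagonal s t h := M.off_diagonal s t (fun e => h (Subtype.ext e))

open Classical in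
/-- extension by zero -/
noncomputable def extL (L : Set J) : (L → ℝ) →ₗ[ℝ] (J → ℝ) where
  toFun v s := if h : s ∈ L then v ⟨s, h⟩ else 0
  map_add' v v' := by ext s; by_cases h : s ∈ L <;> simp [h]
  map_smul' a v := by ext s; by_cases h : s ∈ L <;> simp [h]

/-! ### Statements -/

/-- job CA: basic facts on roots, galleries, parabolic subgroups -/
structure CA : Prop where
  sign : ∀ v w, IsRoot M v → PosAt M w v ∨ PosAt M w (-v)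
  not_both : ∀ v w, IsRoot M v → PosAt M w v → ¬ PosAt M w (-v)
  neg : ∀ v, IsRoot M v → IsRoot M (-v)
  act : ∀ v w, IsRoot M v → IsRoot M (rho M w v)
  norm : ∀ v, IsRoot M v → Bm M v v = 2
  refl : ∀ w s v, rho M (w * sr M s * w⁻¹) v = v - Bm M v (rt M w s) • rt M w s
  ht_one : ∀ v, IsRoot M v → Pos v → 1 ≤ ht v
  rt_mul : ∀ w s, rt M (w * sr M s) s = - rt M w s
  desc : ∀ p w s, ¬ PosAt M p (rt M w s) ↔ len M (p⁻¹ * (w * sr M s)) < len M (p⁻¹ * w)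
  step : ∀ p w, w ≠ p → ∃ s, ¬ PosAt M p (rt M w s)
  cross : ∀ v w s, IsRoot M v → PosAt M w v → ¬ PosAt M (w * sr M s) v → v = rt M w s
  inv_fin : ∀ p w, {v | IsRoot M v ∧ PosAt M w v ∧ ¬ PosAt M p v}.Finite
  between : ∀ p w s v, ¬ PosAt M p (rt M w s) → IsRoot M v → PosAt M p v → PosAt M w v →
    PosAt M (w * sr M s) v
  par_coord : ∀ L, ∀ v ∈ WL M L, ∀ x s, s ∉ L → rho M v x s = x s
  par_step : ∀ L p w s, p⁻¹ * w ∈ WL M L → ¬ PosAt M p (rt M w s) → s ∈ L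
  par_fix : ∀ L, ∀ v ∈ WL M L, ∀ x, (∀ s ∈ L, Bm M x (al s) = 0) → rho M v x = x
  anti : ∀ L y, (∀ s ∈ L, Bm M y (al s) ≤ 0) → ∀ v ∈ WL M L, Pos (rho M v y - y)
  alt : ∀ s t k, s ≠ t → (M s t = 0 ∨ k < M s t) →
    Pos (rt M (M.toCoxeterSystem.wordProd (alternatingWord t s k)) t)
  fin_of_neg : ∀ w, (∀ s, ¬ Pos (rt M w s)) → Finite M.Group
  fin_pair : ∀ s t, M s t ≠ 0 → Finite (WL M {s, t})
  off : ∀ s t, s ≠ t → Bm M (al s) (al t) ≤ 0 ∧ (Bm M (al s) (al t) = 0 ↔ M s t = 2)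
  count : Countable M.Group

/-- job CB: the Tits cone -/
structure CB : Prop where
  tits_iff : ∀ θ : Fn J, Tits M θ ↔ {v | IsRoot M v ∧ Pos v ∧ θ v < 0}.Finite
  tits_add : ∀ θ θ' : Fn J, Tits M θ → Tits M θ' → Tits M (θ + θ')
  closest : ∀ θ : Fn J, Tits M θ → ∀ c, ∃ w, Ch M θ w ∧
    ∀ v, IsRoot M v → PosAt M c v → ¬ PosAt M w v → θ v < 0
  face : ∀ (θ : Fn J) w w', Ch M θ w → Ch M θ w' →
    w⁻¹ * w' ∈ WL M {s | θ (rt M w s) = 0} ∧ ∀ s, θ (rt M w s) = 0 ↔ θ (rt M w' s) = 0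
  face' : ∀ (θ : Fn J) w v, Ch M θ w → v ∈ WL M {s | θ (rt M w s) = 0} → Ch M θ (w * v)
  fin_res : ∀ L, Finite (WL M L) → ∀ (ψ : Fn J) w, ∃ v ∈ WL M L, ∀ s ∈ L, 0 ≤ ψ (rt M (w * v) s)
  pointed : ∀ z, (∀ s, 0 < z s) → (∀ s, Bm M z (al s) ≤ 0) → ∀ θ : Fn J,
    Tits M θ → Tits M (-θ) → θ = 0
  seg : ∀ (C : Fn J → Prop) (R : Fn J → Fn J → Prop), Equivalence R → (∀ θ, C θ → Tits M θ) →
    (∀ θ θ' (a b : ℝ), C θ → C θ' → 0 < a → 0 < b → C (a • θ + b • θ')) →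
    (∀ θ θ' w, C θ → C θ' → Ch M θ w → Ch M θ' w →
      (∀ s, θ' (rt M w s) = 0 → θ (rt M w s) = 0) → R θ θ') →
    ∀ θ θ', C θ → C θ' → R θ θ'

/-- job CC: finite, affine, indefinite -/
structure CC : Prop where
  tri : ∀ L, ConnL M L → PD M L ∨ (∃ δ, Aff M L δ) ∨ ∃ z, Ind M L z
  pd_fin : Disc M → ∀ L, PD M L → Finite (WL M L)
  aff_psd : ∀ L δ, ConnL M L → Aff M L δ → ∀ v, Supp L v → 0 ≤ Bm M v v
  aff_rad : ∀ L δ, ConnL M L → Aff M L δ → ∀ v, Supp L v → Bm M v v = 0 → ∃ a : ℝ, v = a • δ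
  aff_sub : ∀ L δ, ConnL M L → Aff M L δ → ∀ L', L' ⊂ L → PD M L'
  aff_inf : ∀ L δ, L.Nonempty → Aff M L δ → ¬ Finite (WL M L)
  ind_inf : ∀ L z, L.Nonempty → Ind M L z → ¬ Finite (WL M L)
  psd_rad : PSD M → ∀ L, ConnL M L → ∀ v, Supp L v → Bm M v v = 0 → v ≠ 0 →
    (∀ s ∈ L, 0 < v s) ∨ ∀ s ∈ L, v s < 0
  growth : Disc M → ∀ L z, (∀ s ∈ L, Bm M z (al s) ≤ 0) →
    Finite (WL M {s | s ∈ L ∧ Bm M z (al s) = 0}) →
    ∀ R : ℝ, {v | v ∈ WL M L ∧ ht (rho M v z) ≤ R}.Finite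

/-- job SW: Hahn-Banach sandwich on two cones -/
def SandStmt : Prop :=
  ∀ (n : Type) [Fintype n] (Ug Uh : Set (Fn n)) (g h : Fn n → ℝ), Ug ⊆ Uh → (0 : Fn n) ∈ Ug →
    (∀ a ∈ Ug, ∀ b ∈ Ug, a + b ∈ Ug) → (∀ a ∈ Uh, ∀ b ∈ Uh, a + b ∈ Uh) →
    (∀ a ∈ Ug, ∀ t : ℝ, 0 < t → t • a ∈ Ug ∧ g (t • a) = t * g a) →
    (∀ a ∈ Uh, ∀ t : ℝ, 0 < t → t • a ∈ Uh ∧ h (t • a) = t * h a) →
    g 0 = 0 → h 0 = 0 →
    (∀ a ∈ Ug, ∀ b ∈ Ug, g a + g b ≤ g (a + b)) → (∀ a ∈ Uh, ∀ b ∈ Uh, h (a + b) ≤ h a + h b) →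
    (∀ a ∈ Ug, g a ≤ h a) → (∀ φ : Fn n, ∃ a ∈ Ug, ∃ b ∈ Ug, φ = a - b) →
    ∃ y : n → ℝ, (∀ a ∈ Ug, g a ≤ a y) ∧ ∀ a ∈ Uh, a y ≤ h a

/-- job CORE -/
def Core : Prop :=
  Disc M → ∀ (L : Set J) (z : J → ℝ) (b : M.Group → J → ℝ), (∀ s ∈ L, Bm M z (al s) ≤ 0) →
    Finite (WL M {s | s ∈ L ∧ Bm M z (al s) = 0}) →
    (∀ v ∈ WL M L, Pos (rho M v⁻¹ (b v) - z) ∧ Supp L (rho M v⁻¹ (b v) - z)) →
    (∀ v ∈ WL M L, ∀ v' ∈ WL M L, ∀ θ : Fn J, (∀ s ∈ L, 0 ≤ θ (rt M v s)) → θ (b v') ≤ θ (b v)) →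
    ∃ v₀ ∈ WL M L, ∃ y₀ : J → ℝ, Pos (y₀ - z) ∧ Supp L (y₀ - z) ∧ (∀ s ∈ L, Bm M y₀ (al s) ≤ 0) ∧
      Finite (WL M {s | s ∈ L ∧ Bm M y₀ (al s) = 0}) ∧
      ∀ ψ : Fn J, ∃ v ∈ WL M {s | s ∈ L ∧ Bm M y₀ (al s) = 0}, ψ (rho M v₀ y₀) ≤ ψ (b (v₀ * v))

/-- job CD: affine facts -/
def CD : Prop :=
  Disc M → ConnL M Set.univ → Nonempty J → ∀ δ, Aff M Set.univ δ →
    (∀ w, rho M w δ = δ) ∧ (∀ θ : Fn J, 0 < θ δ → Tits M θ) ∧
    {f : J → ℝ | ∃ v, IsRoot M v ∧ f = fun t => Bm M v (al t)}.Finite ∧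
    (∀ v, IsRoot M v → ∀ N : ℝ, ∃ k, N < k ∧ IsRoot M (v + k • δ)) ∧
    (∀ v, IsRoot M v → ∀ w, ∃ k : ℝ, IsRoot M (v + k • δ) ∧ PosAt M w (v + k • δ)) ∧
    (∀ v v', IsRoot M v → IsRoot M v' → Bm M v v' ≠ 2 → Bm M v v' ≠ -2 →
      ∃ w L, Finite (WL M L) ∧ Supp L (rho M w⁻¹ v) ∧ Supp L (rho M w⁻¹ v'))

/-- an orientation of the panels (`o w s`: the chamber `w` is above the chamber `w s`) that points
to a top chamber in every finite residue -/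
def Orient (o : M.Group → J → Prop) : Prop :=
  (∀ w s, o (w * sr M s) s ↔ ¬ o w s) ∧
  ∀ w L, Finite (WL M L) → ∃ u, w⁻¹ * u ∈ WL M L ∧
    ∀ v ∈ WL M L, ∀ s ∈ L, o (u * v) s ↔ Pos (rt M v s)

/-- job AD1: an orientation depends only on the root and is closed under reflections -/
def AD1 : Prop :=
  Disc M → ConnL M Set.univ → ∀ δ, Aff M Set.univ δ → 3 ≤ Fintype.card J → ∀ o, Orient M o →
    ∃ Ψ : Set (J → ℝ), (∀ v ∈ Ψ, IsRoot M v) ∧ (∀ v, IsRoot M v → (v ∈ Ψ ↔ -v ∉ Ψ)) ∧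
      (∀ w s, o w s ↔ rt M w s ∈ Ψ) ∧
      ∀ γ ∈ Ψ, ∀ η ∈ Ψ, Bm M η γ ≤ 0 → Bm M η γ ≠ -2 → η - Bm M η γ • γ ∈ Ψ

/-- job AD2: closed sets of affine roots -/
def AD2 : Prop :=
  Disc M → ConnL M Set.univ → ∀ δ, Aff M Set.univ δ → 3 ≤ Fintype.card J →
    ∀ Ψ : Set (J → ℝ), (∀ v ∈ Ψ, IsRoot M v) → (∀ v, IsRoot M v → (v ∈ Ψ ↔ -v ∉ Ψ)) →
      (∀ γ ∈ Ψ, ∀ η ∈ Ψ, Bm M η γ ≤ 0 → Bm M η γ ≠ -2 → η - Bm M η γ • γ ∈ Ψ) →
      (∀ w, ∃ s, rt M w s ∉ Ψ) → (∀ w, ∃ s, rt M w s ∈ Ψ) →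
      ∃ θ : Fn J, θ ≠ 0 ∧ θ δ = 0 ∧ ∀ v ∈ Ψ, 0 ≤ θ v

/-- job AD: top, bottom or an ideal direction -/
def ADp : Prop :=
  Disc M → ConnL M Set.univ → Nonempty J → ∀ δ, Aff M Set.univ δ → ∀ o, Orient M o →
    (∃ w, ∀ s, o w s) ∨ (∃ w, ∀ s, ¬ o w s) ∨
      ∃ θ : Fn J, θ ≠ 0 ∧ θ δ = 0 ∧ ∀ w s, o w s → 0 ≤ θ (rt M w s)

/-- job SUB: parabolic subsystems -/
def SubC : Prop :=
  ∀ (L : Set J) [Fintype L], ∃ j : (subM M L).Group →* M.Group, Function.Injective j ∧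
    (∀ s : L, j (sr (subM M L) s) = sr M s) ∧ j.range = WL M L ∧
    (∀ v x, rho M (j v) (extL L x) = extL L (rho (subM M L) v x)) ∧
    (∀ x y, Bm M (extL L x) (extL L y) = Bm (subM M L) x y) ∧
    (∀ s : L, extL L (al s) = al (s : J)) ∧ rk (subM M L) ≤ rk M

/-- same side of all walls in the kernel of `θ` -/
def SameP (θ : Fn J) (w w' : M.Group) : Prop :=
  ∀ v, IsRoot M v → θ v = 0 → (PosAt M w v ↔ PosAt M w' v)

/-- the data of the reflection subgroup of the walls in the kernel of `θ` -/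
structure Prism (θ : Fn J) (w₀ : M.Group) (J' : Type) [Fintype J'] [DecidableEq J']
    (M' : CoxeterMatrix J') where
  i : (J' → ℝ) →ₗ[ℝ] (J → ℝ)
  i_B : ∀ x y, Bm M (i x) (i y) = Bm M' x y
  i_θ : ∀ x, θ (i x) = 0
  pos : M.Group → M'.Group
  pos_base : pos w₀ = 1
  pos_eq : ∀ w w', pos w = pos w' ↔ SameP M θ w w'
  pos_ne : ∀ w s, θ (rt M w s) ≠ 0 → pos (w * sr M s) = pos w
  pos_wall : ∀ w s, θ (rt M w s) = 0 →
    ∃ r, rt M w s = i (rt M' (pos w) r) ∧ pos (w * sr M s) = pos w * sr M' r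
  wall : ∀ w r, ∃ w' s, pos w' = pos w ∧ rt M w' s = i (rt M' (pos w) r)
  root : ∀ v, IsRoot M' v → IsRoot M (i v)
  sgn : ∀ w v, PosAt M' (pos w) v → PosAt M w (i v)
  inj : ∀ g L, ConnL M' L → ∀ v, Supp L v → i (rho M' g v) = 0 → v = 0
  rk_lt : rk M' < rk M

/-- job PRISM -/
def PrismS : Prop :=
  Disc M → ConnL M Set.univ → Nonempty J → ∀ δ, Aff M Set.univ δ → ∀ θ : Fn J, θ ≠ 0 → θ δ = 0 →
    ∀ w₀, ∃ (J' : Type) (_ : Fintype J') (_ : DecidableEq J') (M' : CoxeterMatrix J'),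
      Nonempty (Prism M θ w₀ J' M')

/-- finitely many vectors with coordinates in the monoid generated by a finite set of positive
reals lie below a given vector -/
def FinCo : Prop :=
  ∀ (n : Type) [Fintype n] (d : Finset ℝ), (∀ x ∈ d, 0 < x) → ∀ a : n → ℝ,
    {v : n → ℝ | ∀ s, v s ∈ AddSubmonoid.closure (d : Set ℝ) ∧ v s ≤ a s}.Finite

/-- a statement for all Coxeter matrices -/
def All (P : ∀ {J : Type} [Fintype J] [DecidableEq J], CoxeterMatrix J → Prop) : Prop :=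
  ∀ (J : Type) [Fintype J] [DecidableEq J] (M : CoxeterMatrix J), P M

end Pool.Agent.HS
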