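import Pool.Agent.Lib.HT.TD
import Pool.Agent.Lib.HS.Cox

set_option autoImplicit false
set_option linter.unusedSectionVars false

/-! Folded numerical data, co-aisles and systems of frames. -/

namespace Pool.Agent.HS

open Pool.Agent.HT Pool.Agent.Lib.MP_6d85b4_al CoxeterSystem

/-- Numerical 2-Calabi-Yau data with self adjoint functors and a real class map. -/
structure FD where
  K : Type
  [ab : AddCommGroup K]
  T : TD.{1} K
  Λ : Type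
  Phi : Λ → T.Obj → T.Obj
  Phi_ext : ∀ e A Y B, T.Ext A Y B → T.Ext (Phi e A) (Phi e Y) (Phi e B)
  Phi_s : ∀ e A, Phi e (T.s A) = T.s (Phi e A)
  Phi_adj : ∀ e A B, T.hom (Phi e A) B = 0 ↔ T.hom A (Phi e B) = 0
  n : Type
  c : T.Obj → n → ℝ
  c_ext : ∀ A Y B, T.Ext A Y B → c Y = c A + c B
  B : (n → ℝ) →ₗ[ℝ] (n → ℝ) →ₗ[ℝ] ℝ
  B_symm : ∀ x y, B x y = B y x
  E : ∀ X Y, (∀ (F : List Λ) (k : ℤ), Odd k → T.hom (F.foldr Phi X) (T.sh k Y) = 0) →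
    0 ≤ B (c X) (c Y) ∧
      (B (c X) (c Y) = 0 → ∀ (F : List Λ) (k : ℤ), T.hom (F.foldr Phi X) (T.sh k Y) = 0)
  comp : ∀ K P A X Z Z' W Y, T.Ext K P A → T.Ext P X Z → T.Ext Z' W Y → T.hom (T.s K) Y = 0 →
    T.hom Z (T.s A) = 0 → T.hom A (T.s Z') = 0 → T.hom X W = 0 → T.hom A Y = 0

attribute [instance] FD.ab

namespace FD

variable (D : FD)

abbrev Obj : Type 1 := D.T.Obj

/-- a word in the functors -/
abbrev W (F : List D.Λ) (X : D.Obj) : D.Obj := F.foldr D.Phi X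

/-- `Y` is an extension of an object of `Q` by an object of `P` -/
def Star (P Q : D.Obj → Prop) (Y : D.Obj) : Prop := ∃ A B, P A ∧ Q B ∧ D.T.Ext A Y B

/-- right orthogonal -/
def Perp (P : D.Obj → Prop) (Y : D.Obj) : Prop := ∀ A, P A → D.T.hom A Y = 0

/-- stable under the functors -/
def Stab (P : D.Obj → Prop) : Prop := ∀ e A, P A → P (D.Phi e A)

/-- filtered by exactly `k` members of `P` -/
inductive Flt (P : D.Obj → Prop) : ℕ → D.Obj → Prop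
  | zero : Flt P 0 D.T.zero
  | cons {A Y B : D.Obj} {k : ℕ} : P A → D.T.Ext A Y B → Flt P k B → Flt P (k + 1) Y

end FD

/-- The co-aisle `D^{≥ 0}` of a bounded t-structure stable under the functors. -/
structure TS (D : FD) where
  H : D.Obj → Prop
  sh_neg : ∀ Y, H Y → H (D.T.sh (-1) Y)
  trunc : ∀ Y, ∃ A B, (∀ W, H W → D.T.hom A W = 0) ∧ H B ∧ D.T.Ext A Y B
  bdd : ∀ Y, ∃ k : ℤ, H (D.T.sh (-k) Y) ∧ ∀ W, H W → D.T.hom (D.T.sh k Y) W = 0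
  stab : D.Stab H

namespace TS

variable {D : FD} (τ : TS D)

/-- `Y ∈ H[a]`, that is `Y ∈ D^{≥ -a}` -/
def Hn (a : ℤ) (Y : D.Obj) : Prop := τ.H (D.T.sh (-a) Y)

/-- `Y ∈ U[a]`, that is `Y ∈ D^{≤ -a}` -/
def Un (a : ℤ) (Y : D.Obj) : Prop := ∀ W, τ.H W → D.T.hom (D.T.sh (1 - a) Y) W = 0

/-- `Y ∈ heart[a]` -/
def Mn (a : ℤ) (Y : D.Obj) : Prop := τ.Un a Y ∧ τ.Hn a Y

/-- the truncation `τ_{≤ -a} Y`, in `U[a]` -/
noncomputable def lo (a : ℤ) (Y : D.Obj) : D.Obj :=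
  D.T.sh (a - 1) (τ.trunc (D.T.sh (1 - a) Y)).choose

/-- the truncation `τ_{> -a} Y`, in `H[a - 1]` -/
noncomputable def hi (a : ℤ) (Y : D.Obj) : D.Obj :=
  D.T.sh (a - 1) (τ.trunc (D.T.sh (1 - a) Y)).choose_spec.choose

/-- cohomology in degree zero -/
noncomputable def h0 (Y : D.Obj) : D.Obj := τ.lo 0 (τ.hi 1 Y)

/-- simple object of the heart -/
def Simple (S : D.Obj) : Prop :=
  τ.Mn 0 S ∧ S ≠ D.T.zero ∧
    ∀ A B, τ.Mn 0 A → τ.Mn 0 B → D.T.Ext A S B → A = D.T.zero ∨ B = D.T.zero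

end TS

/-- The reference data. -/
structure Ref (D : FD) where
  ι : Type
  [fin : Fintype ι]
  V : TS D
  X : ι → D.Obj
  mem : ∀ t, V.Mn 0 (X t)
  genH : ∀ Y, (∀ t F (k : ℤ), 1 ≤ k → D.T.hom (D.T.sh k (D.W F (X t))) Y = 0) → V.Hn 0 Y
  genU : ∀ Y, (∀ t F (k : ℤ), 1 ≤ k → D.T.hom Y (D.T.sh (-k) (D.W F (X t))) = 0) → V.Un 0 Y
  rig : ∀ t F, D.T.hom (D.W F (X t)) (D.T.sh 1 (X t)) = 0
  ρ : (D.n → ℝ) →ₗ[ℝ] ℝ
  ρ_pos : ∀ Y, V.Mn 0 Y → Y ≠ D.T.zero → 0 < ρ (D.c Y)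
  ω : (D.n → ℝ) →ₗ[ℝ] ℝ
  u : ι

attribute [instance] Ref.fin

/-- A system of frames of type `M`. -/
structure Sys (D : FD) (R : Ref D) {J : Type} [Fintype J] [DecidableEq J] (M : CoxeterMatrix J) where
  X : Type
  ne : Nonempty X
  up : J → X → X
  dn : J → X → X
  up_dn : ∀ s x, up s (dn s x) = x
  dn_up : ∀ s x, dn s (up s x) = x
  braid : ∀ s t x, M s t ≠ 0 →
    (alternatingWord s t (M s t)).foldl (fun y r => up r y) x =
      (alternatingWord t s (M s t)).foldl (fun y r => up r y) x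
  trans : ∀ x y, Relation.EqvGen (fun a b => ∃ s, b = up s a) x y
  w : X → M.Group
  w_up : ∀ s x, w (up s x) = w x * sr M s
  ι : (J → ℝ) →ₗ[ℝ] (D.n → ℝ)
  ι_B : ∀ x y, D.B (ι x) (ι y) = Bm M x y
  ι_inj : ∀ g L, ConnL M L → ∀ v, Supp L v → ι (rho M g v) = 0 → v = 0
  τ : X → TS D
  S : X → J → D.Obj → Prop
  S_ne : ∀ x s, ∃ A, S x s A
  S_simple : ∀ x s A, S x s A → (τ x).Simple A
  S_phi : ∀ x s A e, S x s A → D.T.Cl {B | S x s B} (D.Phi e A)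
  S_conn : ∀ x s A A', S x s A → S x s A' → ∃ F, D.T.hom (D.W F A) A' ≠ 0
  S_rig : ∀ x s A A', S x s A → S x s A' → D.T.hom A (D.T.sh 1 A') = 0
  S_up : ∀ x s A, S (up s x) s A ↔ S x s (D.T.sh (-1) A)
  ds : Finset ℝ
  ds_pos : ∀ d ∈ ds, 0 < d
  S_cl : ∀ x s A, S x s A → ∃ d ∈ ds, D.c A = d • ι (rt M (w x) s)
  H_up : ∀ s x Y, (τ (up s x)).H Y ↔
    D.Star (D.T.Cl {B | ∃ A, S x s A ∧ B = D.T.sh 1 A}) (τ x).H Y
  Dj : D.Obj → Prop
  Dj_iff : ∀ x Y, Dj Y ↔ D.T.Cl {B | ∃ s A k, S x s A ∧ B = D.T.sh k A} Y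
  bd : ∀ x N, (τ x).Mn 0 N → ∃ k₀, ∀ k B C, D.Flt (fun A => ∃ s, S x s A) k B → (τ x).Mn 0 C →
    D.T.Ext B N C → k ≤ k₀
  fl : (∀ x N, (τ x).Mn 0 N → D.T.Cl {A | (τ x).Simple A} N) ∨ PSD M
  Z : ∀ x z N, Pos z → (∀ s, Bm M z (al s) ≤ 0) → (τ x).Mn 0 N →
    D.B (ι (rho M (w x) z)) (D.c N) ≤ 0 ∧
      (z ≠ 0 → 0 < R.ω (D.c N) → D.B (ι (rho M (w x) z)) (D.c N) < 0)
  O : ∀ x, 0 < R.ω (D.c ((τ x).h0 (R.X R.u)))
  ω_ι : ∀ v, R.ω (ι v) = 0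
  Rf : ∀ x, {v | ∃ γ, IsRoot M γ ∧ PosAt M (w x) γ ∧ v = ι γ ∧ R.ρ v < 0}.Finite

namespace Sys

variable {D : FD} {R : Ref D} {J : Type} [Fintype J] [DecidableEq J] {M : CoxeterMatrix J}
  (P : Sys D R M)

/-- the Serre subcategory generated by the simples of types in `L` -/
def WW (x : P.X) (L : Set J) (Y : D.Obj) : Prop := D.T.Cl {A | ∃ s ∈ L, P.S x s A} Y

/-- the triangulated subcategory generated by the simples of types in `L` -/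
def DL (x : P.X) (L : Set J) (Y : D.Obj) : Prop :=
  D.T.Cl {B | ∃ s ∈ L, ∃ A k, P.S x s A ∧ B = D.T.sh k A} Y

/-- the class in the root space (meaningful for `Dj` objects when `ι` is injective) -/
noncomputable def cE (Y : D.Obj) : J → ℝ := P.ι.leftInverse (D.c Y)

/-- connected by moves of types in `L` inside `T` -/
def Conn (L : Set J) (T : P.X → Prop) (x y : P.X) : Prop :=
  Relation.EqvGen (fun a b => T a ∧ T b ∧ ∃ s ∈ L, b = P.up s a) x y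

/-- the `L`-orbit -/
def Orb (L : Set J) (x y : P.X) : Prop := P.Conn L (fun _ => True) x y

/-- `y` lies in the unit interval above `K` -/
def In (K : TS D) (y : P.X) : Prop :=
  (∀ Y, P.Dj Y → K.Hn 0 Y → (P.τ y).Hn 0 Y) ∧ (∀ Y, P.Dj Y → (P.τ y).Hn 0 Y → K.Hn 1 Y) ∧
    ∀ Y, P.Dj Y → P.Dj (K.lo 1 Y)

/-- the type `s` at `y` moves upwards -/
def Upw (K : TS D) (y : P.X) (s : J) : Prop := ∀ A, P.S y s A → K.Hn 0 A

open Classical in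
/-- the `K`-move -/
noncomputable def mv (K : TS D) (s : J) (y : P.X) : P.X := if P.Upw K y s then P.up s y else P.dn s y

/-- the section of `K` through `x` -/
def Sec (K : TS D) (x y : P.X) : Prop :=
  Relation.ReflTransGen (fun a b => ∃ s, b = P.mv K s a) x y

/-- reached by downward `K`-moves -/
def Down (K : TS D) (x y : P.X) : Prop :=
  Relation.ReflTransGen (fun a b => ∃ s, ¬ P.Upw K a s ∧ b = P.dn s a) x y

/-- reached by upward `K`-moves -/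
def Up (K : TS D) (x y : P.X) : Prop :=
  Relation.ReflTransGen (fun a b => ∃ s, P.Upw K a s ∧ b = P.up s a) x y

/-- reduced reference objects -/
structure Red where
  X : R.ι → D.Obj
  ext : ∀ t, ∃ Z, D.Perp P.Dj Z ∧ D.T.Ext (X t) (R.X t) Z

variable {P}

/-- the window condition -/
def Red.Om (X : P.Red) (b : ℤ) (x : P.X) : Prop := ∀ t, (P.τ x).Un (-b) (X.X t)

/-- the window condition modulo `Dj` -/
def Red.Adj (X : P.Red) (b : ℤ) : Prop :=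
  ∀ x t, D.Star ((P.τ x).Un (-b)) P.Dj (X.X t)

/-- the class generated by the shifted reduced objects -/
def Red.O (X : P.Red) (β : ℤ) (Y : D.Obj) : Prop := ∃ t F, Y = D.W F (D.T.sh β (X.X t))

variable (P)

/-- the main statement for one system -/
def Top : Prop :=
  ∀ (X : P.Red) (b : ℤ), 0 ≤ b → X.Adj b →
    (∃ x, X.Om b x) ∧ ∀ x y, X.Om b x → X.Om b y → P.Conn Set.univ (X.Om b) x y

/-- the main statement for the `L`-orbits -/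
def TopL (L : Set J) : Prop :=
  ∀ (X : R.ι → D.Obj) (x₀ : P.X) (b : ℤ), 0 ≤ b →
    (∀ t, ∃ Z, D.Perp (P.DL x₀ L) Z ∧ D.T.Ext (X t) (R.X t) Z) →
    (∀ t, D.Star ((P.τ x₀).Un (-b)) (P.DL x₀ L) (X t)) →
    (∃ x, P.Orb L x₀ x ∧ ∀ t, (P.τ x).Un (-b) (X t)) ∧
      ∀ x y, P.Orb L x₀ x → P.Orb L x₀ y → (∀ t, (P.τ x).Un (-b) (X t)) →
        (∀ t, (P.τ y).Un (-b) (X t)) → P.Conn L (fun a => ∀ t, (P.τ a).Un (-b) (X t)) x y

/-- `K` is the cut of the frame `y` along the class `O` -/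
structure IsCut (K : TS D) (y : P.X) (O : D.Obj → Prop) : Prop where
  lo : ∀ Y, (P.τ y).Hn (-1) Y → K.Hn 0 Y
  hi : ∀ Y, K.Hn 0 Y → (P.τ y).Hn 0 Y
  ge : ∀ Y, (P.τ y).Hn 0 Y → D.Perp O Y → K.Hn 0 Y
  le : ∀ Y, P.Dj Y → K.Hn 0 Y → D.Perp O Y

open Classical in
/-- a chosen cut -/
noncomputable def cut (y : P.X) (O : D.Obj → Prop) : TS D :=
  if h : ∃ K, P.IsCut K y O then h.choose else P.τ y

variable {P}

/-- the cut `K_x` of the push step -/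
noncomputable def Red.K (X : P.Red) (β : ℤ) (x : P.X) : TS D := P.cut x (X.O β)

/-- the section `Σ_x` -/
def Red.Sx (X : P.Red) (β : ℤ) (x y : P.X) : Prop := P.Sec (X.K β x) x y

/-- the chambers above `G₁` -/
def Red.NN (X : P.Red) (β : ℤ) (x c : P.X) : Prop :=
  X.Sx β x c ∧ ∀ Y, P.Dj Y → (X.K β x).Hn 1 Y → D.Perp (X.O β) Y → (P.τ c).Hn 0 Y

/-- the level condition -/
def Red.Kp (X : P.Red) (β : ℤ) (x : P.X) (k : ℤ) : Prop :=
  ∀ Y, P.Dj Y → R.V.Hn k Y → (X.K β x).Hn 0 Y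

/-- the push step from level `β` to level `β - 1` -/
def Red.Push (X : P.Red) (β : ℤ) : Prop :=
  (∀ x, X.Om β x → ∃ y, X.Om (β - 1) y) ∧
    ∀ x y, X.Om (β - 1) x → X.Om (β - 1) y → P.Conn Set.univ (X.Om β) x y →
      P.Conn Set.univ (X.Om (β - 1)) x y

/-- the hypotheses of the push lemma -/
structure Red.PD (X : P.Red) (β : ℤ) (DT : P.X → P.X → Prop) : Prop where
  mem : ∀ x y, X.Om β x → DT x y → X.Om (β - 1) y
  p2 : ∀ x c y, X.Om β x → DT x y → X.Sx β x c →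
    (∃ y', DT c y') ∧ ∀ y', DT c y' → P.Conn Set.univ (X.Om (β - 1)) y y'
  p3 : ∀ x, X.Om β x → (¬ ∃ y, DT x y) → (∃ c, X.NN β x c) ∧ ¬ X.Kp β x (β - 1)
  p4 : ∀ x, X.Om (β - 1) x → DT x x

variable (P)

/-- data for the trichotomy -/
structure Tri (K : TS D) (x : P.X) (A : D.Obj) : Prop where
  inK : P.In K x
  lo : ∀ Y, (P.τ x).Hn (-1) Y → K.Hn 0 Y
  hi : ∀ Y, K.Hn 0 Y → (P.τ x).Hn 0 Y
  mem : K.Mn 1 A
  inner : ∀ y, P.Sec K x y → P.Dj ((P.τ y).hi 1 A)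

/-- the cone `M` -/
def MC (K : TS D) (x : P.X) (A : D.Obj) (θ : Fn J) : Prop :=
  ∃ y, P.Sec K x y ∧ Ch M θ (P.w y) ∧ θ (P.cE ((P.τ y).hi 1 A)) ≤ 0

/-- the class `FF''` -/
def FF (K : TS D) (A Y : D.Obj) : Prop :=
  P.Dj Y ∧ K.Mn 1 Y ∧ ∀ F, D.T.hom (D.W F A) Y = 0

/-- the torsion class of objects all of whose nonzero quotients are `θ`-positive -/
def Tθ (θ : Fn J) (y : P.X) (B : D.Obj) : Prop :=
  P.WW y Set.univ B ∧ ∀ N Q, (P.τ y).Mn 0 N → (P.τ y).Mn 0 Q → D.T.Ext N B Q → Q ≠ D.T.zero →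
    0 < θ (P.cE Q)

/-- reached by `θ`-moves and crossings of walls in the kernel of `θ` -/
def Xθ (θ : Fn J) (x y : P.X) : Prop :=
  Relation.EqvGen (fun a b => ∃ s, θ (rt M (P.w a) s) ≤ 0 ∧ b = P.up s a) x y

/-- reached by `θ`-moves -/
def Cls (θ : Fn J) (x y : P.X) : Prop :=
  Relation.EqvGen (fun a b => ∃ s, θ (rt M (P.w a) s) < 0 ∧ b = P.up s a) x y

open Classical in
/-- the ideal frame -/
noncomputable def Eθ (θ : Fn J) (y : P.X) : TS D :=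
  if h : ∃ K : TS D, ∀ Y, K.Hn 0 Y ↔ (P.τ y).Hn 0 Y ∧ D.Perp (P.Tθ θ y) Y then h.choose else P.τ y

/-- the semistable objects -/
def Wθ (θ : Fn J) (y : P.X) (B : D.Obj) : Prop :=
  P.Dj B ∧ (P.Eθ θ y).Mn 0 B ∧ θ (P.cE B) = 0

/-- the wall bricks of the class of `y` -/
def Wall (θ : Fn J) (y : P.X) (A : D.Obj) : Prop :=
  ∃ y' s, P.Cls θ y y' ∧ θ (rt M (P.w y') s) = 0 ∧ P.S y' s A

/-- the imaginary part -/
def Imag (θ : Fn J) (δ : J → ℝ) (y : P.X) (C : D.Obj) : Prop :=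
  P.Wθ θ y C ∧ (∃ a : ℝ, P.cE C = a • δ) ∧
    ∀ A k, P.Wall θ y A → D.T.hom A (D.T.sh k C) = 0

/-- `θ` is nonnegative on the heart of `K[1]` -/
def AdT (K : TS D) (δ : J → ℝ) (θ : Fn J) : Prop :=
  θ ≠ 0 ∧ θ δ = 0 ∧ ∀ Y, P.Dj Y → K.Mn 1 Y → 0 ≤ θ (P.cE Y)

end Sys

end Pool.Agent.HS
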