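import Pool.Agent.Lib.HS.Defs

set_option autoImplicit false
set_option linter.unusedSectionVars false

/-! Statements, part A: co-aisles, general facts on systems, sections. -/

namespace Pool.Agent.HS

open Pool.Agent.HT Pool.Agent.Lib.MP_6d85b4_al CoxeterSystem

/-- job TA: functors, classes, truncations -/
structure TA (D : FD) : Prop where
  W_ext : ∀ F A Y B, D.T.Ext A Y B → D.T.Ext (D.W F A) (D.W F Y) (D.W F B)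
  W_sh : ∀ F k A, D.W F (D.T.sh k A) = D.T.sh k (D.W F A)
  W_adj : ∀ F A B, D.T.hom (D.W F A) B = 0 ↔ D.T.hom A (D.W F.reverse B) = 0
  W_zero : ∀ F, D.W F D.T.zero = D.T.zero
  W_stab : ∀ P, D.Stab P → ∀ F A, P A → P (D.W F A)
  c_zero : D.c D.T.zero = 0
  c_sh : ∀ k A, D.c (D.T.sh (k + 1) A) = - D.c (D.T.sh k A)
  c_one : ∀ A, D.c (D.T.sh 1 A) = - D.c A
  c_neg : ∀ A, D.c (D.T.sh (-1) A) = - D.c A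
  H_iff : ∀ (τ : TS D) Y, τ.Hn 0 Y ↔ τ.H Y
  Hn_zero : ∀ (τ : TS D) a, τ.Hn a D.T.zero
  Un_zero : ∀ (τ : TS D) a, τ.Un a D.T.zero
  Hn_ext : ∀ (τ : TS D) a A Y B, D.T.Ext A Y B → τ.Hn a A → τ.Hn a B → τ.Hn a Y
  Un_ext : ∀ (τ : TS D) a A Y B, D.T.Ext A Y B → τ.Un a A → τ.Un a B → τ.Un a Y
  Hn_mono : ∀ (τ : TS D) a b Y, a ≤ b → τ.Hn a Y → τ.Hn b Y
  Un_mono : ∀ (τ : TS D) a b Y, b ≤ a → τ.Un a Y → τ.Un b Y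
  Hn_sh : ∀ (τ : TS D) a b k Y, b = a + k → (τ.Hn b (D.T.sh k Y) ↔ τ.Hn a Y)
  Un_sh : ∀ (τ : TS D) a b k Y, b = a + k → (τ.Un b (D.T.sh k Y) ↔ τ.Un a Y)
  hom_UH : ∀ (τ : TS D) a b A B, b < a → τ.Un a A → τ.Hn b B → D.T.hom A B = 0
  Hn_of : ∀ (τ : TS D) a Y, (∀ A, τ.Un (a + 1) A → D.T.hom A Y = 0) → τ.Hn a Y
  Un_of : ∀ (τ : TS D) a Y, (∀ B, τ.Hn (a - 1) B → D.T.hom Y B = 0) → τ.Un a Y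
  lo_hi : ∀ (τ : TS D) a Y,
    D.T.Ext (τ.lo a Y) Y (τ.hi a Y) ∧ τ.Un a (τ.lo a Y) ∧ τ.Hn (a - 1) (τ.hi a Y)
  uniq : ∀ (τ : TS D) a A Y B, D.T.Ext A Y B → τ.Un a A → τ.Hn (a - 1) B →
    A = τ.lo a Y ∧ B = τ.hi a Y
  lo_Hn : ∀ (τ : TS D) a b Y, τ.Hn b Y → τ.Hn b (τ.lo a Y)
  hi_Un : ∀ (τ : TS D) a b Y, τ.Un b Y → τ.Un b (τ.hi a Y)
  lo_sh : ∀ (τ : TS D) a k Y, τ.lo (a + k) (D.T.sh k Y) = D.T.sh k (τ.lo a Y)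
  hi_sh : ∀ (τ : TS D) a k Y, τ.hi (a + k) (D.T.sh k Y) = D.T.sh k (τ.hi a Y)
  bdd : ∀ (τ : TS D) Y, ∃ k : ℤ, 0 ≤ k ∧ τ.Hn k Y ∧ τ.Un (-k) Y
  W_Hn : ∀ (τ : TS D) a F Y, τ.Hn a Y → τ.Hn a (D.W F Y)
  W_Un : ∀ (τ : TS D) a F Y, τ.Un a Y → τ.Un a (D.W F Y)
  W_lo : ∀ (τ : TS D) a F Y, τ.lo a (D.W F Y) = D.W F (τ.lo a Y)
  W_hi : ∀ (τ : TS D) a F Y, τ.hi a (D.W F Y) = D.W F (τ.hi a Y)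
  eq_zero : ∀ (τ : TS D) a Y, τ.Un a Y → τ.Hn (a - 1) Y → Y = D.T.zero
  U_of_H : ∀ (τ τ' : TS D) a b, (∀ Y, τ.Hn a Y → τ'.Hn b Y) →
    ∀ Y, τ'.Un (b + 1) Y → τ.Un (a + 1) Y
  H_sh : ∀ (τ τ' : TS D) a b k, (∀ Y, τ.Hn a Y → τ'.Hn b Y) →
    ∀ Y, τ.Hn (a + k) Y → τ'.Hn (b + k) Y
  shift : ∀ (τ : TS D) (k : ℤ), ∃ K : TS D,
    ∀ a Y, (K.Hn a Y ↔ τ.Hn (a + k) Y) ∧ (K.Un a Y ↔ τ.Un (a + k) Y)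
  perp_symm : ∀ (P : D.Obj → Prop), (∀ k A, P A → P (D.T.sh k A)) → ∀ Z, D.Perp P Z →
    ∀ k A, P A → D.T.hom A (D.T.sh k Z) = 0 ∧ D.T.hom (D.T.sh k Z) A = 0

/-- job TB: images, summands, Euler inequalities, tilts, sums -/
structure TB (D : FD) : Prop where
  cone_dec : ∀ (τ : TS D) a A B F, τ.Mn a A → τ.Mn a B → D.T.Ext A B F →
    ∃ N I C, τ.Mn a N ∧ τ.Mn a I ∧ τ.Mn a C ∧ D.T.Ext N A I ∧ D.T.Ext I B C ∧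
      D.T.Ext (D.T.sh 1 N) F C
  image : ∀ (τ : TS D) a A B, τ.Mn a A → τ.Mn a B → D.T.hom A B ≠ 0 →
    ∃ N I C, τ.Mn a N ∧ τ.Mn a I ∧ τ.Mn a C ∧ I ≠ D.T.zero ∧ D.T.Ext N A I ∧ D.T.Ext I B C
  summand : ∀ (τ : TS D) a A Y B, (∀ W, D.T.hom W Y = D.T.hom W A + D.T.hom W B) →
    (τ.Hn a Y → τ.Hn a A) ∧ (τ.Un a Y → τ.Un a A)
  E1 : ∀ (τ : TS D) a X Y, τ.Mn a X → τ.Mn a Y →
    (∀ F, D.T.hom (D.W F X) (D.T.sh 1 Y) = 0) → 0 ≤ D.B (D.c X) (D.c Y) ∧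
      (D.B (D.c X) (D.c Y) = 0 → ∀ F k, D.T.hom (D.W F X) (D.T.sh k Y) = 0)
  E2 : ∀ (τ : TS D) a X Y, τ.Mn a X → τ.Mn a Y → (∀ F, D.T.hom (D.W F X) Y = 0) →
    (∀ F, D.T.hom Y (D.W F X) = 0) → D.B (D.c X) (D.c Y) ≤ 0 ∧
      (D.B (D.c X) (D.c Y) = 0 → ∀ F k, D.T.hom (D.W F X) (D.T.sh k Y) = 0)
  E0 : ∀ X Y, (∀ F k, D.T.hom (D.W F X) (D.T.sh k Y) = 0) → D.B (D.c X) (D.c Y) = 0
  tilt : ∀ (τ : TS D) (T : D.Obj → Prop), (∀ A, T A → τ.Mn 0 A) → D.Stab T →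
    (∀ N, τ.Mn 0 N → ∃ A B, T A ∧ τ.Mn 0 B ∧ D.Perp T B ∧ D.T.Ext A N B) →
    ∃ K : TS D, (∀ Y, K.Hn 0 Y ↔ τ.Hn 0 Y ∧ D.Perp T Y) ∧
      (∀ N, K.Mn 0 N → ∃ f t, τ.Mn 0 f ∧ K.Mn 0 f ∧ T t ∧ D.T.Ext f N (D.T.sh (-1) t)) ∧
      (∀ Y, ∃ t t', T t ∧ T t' ∧ D.c (K.h0 Y) = D.c (τ.h0 Y) - D.c t - D.c t') ∧
      ∀ B, τ.Mn 0 B → K.Un 1 B → T B
  sum : ∀ (ι : Type) [Fintype ι] (X : ι → D.Obj), ∃ Y, D.T.Cl (Set.range X) Y ∧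
    (∀ W, D.T.hom Y W = 0 ↔ ∀ t, D.T.hom (X t) W = 0) ∧
    ∀ t, ∃ C, D.T.Ext (X t) Y C ∧ D.T.Ext C Y (X t) ∧
      ∀ W, D.T.hom W Y = D.T.hom W (X t) + D.T.hom W C
  hi_quot : ∀ (τ : TS D) a C Y Q, D.T.Ext C Y Q → τ.Un (a - 1) C → τ.Un (a - 1) Q →
    ∃ N, τ.Mn (a - 1) N ∧ D.T.Ext N (τ.hi a Y) (τ.hi a Q)
  hi_sum : ∀ (τ : TS D) a A Y B, D.T.Ext A Y B →
    (∀ W, D.T.hom W Y = D.T.hom W A + D.T.hom W B) → τ.Un (a - 1) A → τ.Un (a - 1) B →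
    D.T.Ext (τ.hi a A) (τ.hi a Y) (τ.hi a B)
  rigid : ∀ (τ : TS D) (P : D.Obj → Prop) X X₀ Z, (∀ k A, P A → P (D.T.sh k A)) → D.Stab P →
    D.T.Ext X X₀ Z → D.Perp P Z → τ.Un 0 X → P (τ.hi 1 X) →
    (∀ F, D.T.hom (D.W F X₀) (D.T.sh 1 X₀) = 0) →
    ∀ F, D.T.hom (D.W F (τ.hi 1 X)) (D.T.sh 1 (τ.hi 1 X)) = 0

variable {D : FD} {R : Ref D} {J : Type} [Fintype J] [DecidableEq J] {M : CoxeterMatrix J}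

/-- job SA: Serre subcategories and single tilts -/
structure SA (P : Sys D R M) : Prop where
  WW_M : ∀ x L Y, P.WW x L Y → (P.τ x).Mn 0 Y
  serre : ∀ x L A Y B, P.WW x L Y → (P.τ x).Mn 0 A → (P.τ x).Mn 0 B → D.T.Ext A Y B →
    P.WW x L A ∧ P.WW x L B
  Dj_DL : ∀ x Y, P.Dj Y ↔ P.DL x Set.univ Y
  DL_sh : ∀ x L k Y, P.DL x L Y → P.DL x L (D.T.sh k Y)
  DL_W : ∀ x L F Y, P.DL x L Y → P.DL x L (D.W F Y)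
  WW_W : ∀ x L F Y, P.WW x L Y → P.WW x L (D.W F Y)
  WW_DL : ∀ x L Y, P.WW x L Y → P.DL x L Y
  DL_trunc : ∀ x L a Y, P.DL x L Y → P.DL x L ((P.τ x).lo a Y) ∧ P.DL x L ((P.τ x).hi a Y)
  DL_WW : ∀ x L Y, P.DL x L Y → (P.τ x).Mn 0 Y → P.WW x L Y
  Hn_of : ∀ x L a Y, P.DL x L Y →
    (∀ s ∈ L, ∀ A k, P.S x s A → a < k → D.T.hom (D.T.sh k A) Y = 0) → (P.τ x).Hn a Y
  Un_of : ∀ x L a Y, P.DL x L Y →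
    (∀ s ∈ L, ∀ A k, P.S x s A → k < a → D.T.hom Y (D.T.sh k A) = 0) → (P.τ x).Un a Y
  hom_ne : ∀ x s t A A', s ≠ t → P.S x s A → P.S x t A' → D.T.hom A A' = 0
  rep : ∀ x s A A' B, P.S x s A → P.S x s A' → (∀ F, D.T.hom (D.W F A) B = 0) →
    D.T.hom A' B = 0
  of_simple : ∀ x s A, P.WW x {s} A → (∀ A₁ A₂, P.WW x {s} A₁ → P.WW x {s} A₂ →
    D.T.Ext A₁ A A₂ → A₁ = D.T.zero ∨ A₂ = D.T.zero) → A ≠ D.T.zero → P.S x s A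
  H_dn : ∀ s x Y, (P.τ (P.dn s x)).Hn 0 Y ↔ (P.τ x).Hn 0 Y ∧ D.Perp (P.S x s) Y
  U_up : ∀ s x Y, (P.τ (P.up s x)).Un 0 Y ↔
    (P.τ x).Un 0 Y ∧ ∀ A, P.S x s A → D.T.hom Y A = 0
  up_lo : ∀ s x a Y, (P.τ x).Hn a Y → (P.τ (P.up s x)).Hn a Y
  up_hi : ∀ s x a Y, (P.τ (P.up s x)).Hn a Y → (P.τ x).Hn (a + 1) Y
  w_dn : ∀ s x, P.w (P.dn s x) = P.w x * sr M s
  co : ∀ x L Y, P.WW x L Y → ∃ v, Pos v ∧ Supp L v ∧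
    (∀ s, v s ∈ AddSubmonoid.closure (P.ds : Set ℝ)) ∧ D.c Y = P.ι (rho M (P.w x) v) ∧
    P.WW x {s | v s ≠ 0} Y
  hi_DL : ∀ x L a Y, D.Star ((P.τ x).Un a) (P.DL x L) Y → P.DL x L ((P.τ x).hi a Y)
  lo_DL : ∀ x L a Y, D.Star (P.DL x L) ((P.τ x).Hn (a - 1)) Y → P.DL x L ((P.τ x).lo a Y)
  orb_univ : ∀ x y, P.Orb Set.univ x y

/-- job SB: orthogonal types, invariance of `DL`, torsion parts and cuts -/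
structure SB (P : Sys D R M) : Prop where
  orth : ∀ x L₁ L₂, (∀ s ∈ L₁, ∀ t ∈ L₂, M s t = 2) → ∀ A B, P.DL x L₁ A → P.DL x L₂ B →
    D.T.hom A B = 0
  split : ∀ x L₁ L₂, (∀ s ∈ L₁, ∀ t ∈ L₂, M s t = 2) → ∀ Y, P.DL x (L₁ ∪ L₂) Y →
    ∃ A B, P.DL x L₁ A ∧ P.DL x L₂ B ∧ D.T.Ext A Y B ∧ D.T.Ext B Y A ∧
      ∀ W, D.T.hom W Y = D.T.hom W A + D.T.hom W B
  DL_up : ∀ x L s, (s ∈ L ∨ ∀ t ∈ L, M s t = 2) → ∀ Y, P.DL (P.up s x) L Y ↔ P.DL x L Y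
  DL_orb : ∀ L x y, P.Orb L x y → ∀ Y, P.DL x L Y ↔ P.DL y L Y
  starU : ∀ L x y, P.Orb L x y → ∀ a Y, D.Star ((P.τ x).Un a) (P.DL x L) Y →
    D.Star ((P.τ y).Un a) (P.DL y L) Y
  starH : ∀ L x y, P.Orb L x y → ∀ a Y, D.Star (P.DL x L) ((P.τ x).Hn a) Y →
    D.Star (P.DL y L) ((P.τ y).Hn a) Y
  perp_U : ∀ x y a Z, D.Perp P.Dj Z → (P.τ x).Un a Z → (P.τ y).Un a Z
  perp_H : ∀ x y a Z, D.Perp P.Dj Z → (P.τ x).Hn a Z → (P.τ y).Hn a Z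
  tors : ∀ x (T : D.Obj → Prop), T D.T.zero → (∀ A, T A → P.WW x Set.univ A) →
    (∀ N A I, (P.τ x).Mn 0 N → (P.τ x).Mn 0 I → D.T.Ext N A I → T A → T I) →
    (∀ A Y B, D.T.Ext A Y B → T A → T B → T Y) →
    ∀ N, (P.τ x).Mn 0 N → ∃ A B, T A ∧ (P.τ x).Mn 0 B ∧ D.Perp T B ∧ D.T.Ext A N B
  cut : ∀ y O, D.Stab O → (∀ A, O A → (P.τ y).Un 0 A) → P.IsCut (P.cut y O) y O

/-- job SC: classes and moves in a unit interval (connected type) -/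
structure SC (P : Sys D R M) : Prop where
  inj : Function.Injective P.ι
  cE_ext : ∀ A Y B, D.T.Ext A Y B → P.cE Y = P.cE A + P.cE B
  cE_zero : P.cE D.T.zero = 0
  cE_one : ∀ A, P.cE (D.T.sh 1 A) = - P.cE A
  cE_neg : ∀ A, P.cE (D.T.sh (-1) A) = - P.cE A
  ι_cE : ∀ Y, P.Dj Y → P.ι (P.cE Y) = D.c Y
  cE_S : ∀ x s A, P.S x s A → ∃ d ∈ P.ds, P.cE A = d • rt M (P.w x) s
  co : ∀ x L Y, P.WW x L Y → PosAt M (P.w x) (P.cE Y) ∧ Supp L (rho M (P.w x)⁻¹ (P.cE Y)) ∧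
    ∀ s, rho M (P.w x)⁻¹ (P.cE Y) s ∈ AddSubmonoid.closure (P.ds : Set ℝ)
  supp : ∀ x L Y, P.WW x Set.univ Y → Supp L (rho M (P.w x)⁻¹ (P.cE Y)) → P.WW x L Y
  ch_pos : ∀ x (θ : Fn J) Y, P.WW x Set.univ Y → Ch M θ (P.w x) → 0 ≤ θ (P.cE Y) ∧
    (θ (P.cE Y) = 0 → P.WW x {s | θ (rt M (P.w x) s) = 0} Y)
  eq_zero : ∀ x Y, P.WW x Set.univ Y → P.cE Y = 0 → Y = D.T.zero
  in_amb : ∀ (K : TS D) y, (∀ Y, (P.τ y).Hn (-1) Y → K.Hn 0 Y) →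
    (∀ Y, K.Hn 0 Y → (P.τ y).Hn 0 Y) → P.In K y
  D_trunc : ∀ K y a Y, P.In K y → P.Dj Y → P.Dj (K.lo a Y) ∧ P.Dj (K.hi a Y)
  U_lo : ∀ K y a Y, P.In K y → P.Dj Y → (P.τ y).Un a Y → K.Un a Y
  U_hi : ∀ K y a Y, P.In K y → P.Dj Y → K.Un (a + 1) Y → (P.τ y).Un a Y
  parts : ∀ K y Y, P.In K y → P.Dj Y → K.Mn 1 Y →
    K.Mn 1 ((P.τ y).lo 1 Y) ∧ K.Mn 1 ((P.τ y).hi 1 Y) ∧
      P.WW y Set.univ (D.T.sh (-1) ((P.τ y).lo 1 Y)) ∧ P.WW y Set.univ ((P.τ y).hi 1 Y)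
  parts' : ∀ K y Y, P.In K y → P.WW y Set.univ Y →
    K.Mn 1 (K.lo 1 Y) ∧ K.Mn 0 (K.hi 1 Y) ∧ P.WW y Set.univ (K.lo 1 Y) ∧
      P.WW y Set.univ (K.hi 1 Y)
  upw : ∀ K y s A, P.In K y → P.S y s A →
    (P.Upw K y s ↔ K.Mn 0 A) ∧ (¬ P.Upw K y s ↔ K.Mn 1 A)
  in_mv : ∀ K y s, P.In K y → P.In K (P.mv K s y)
  mv_mv : ∀ K y s, P.In K y → P.mv K s (P.mv K s y) = y
  w_mv : ∀ K y s, P.w (P.mv K s y) = P.w y * sr M s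
  amb_lo : ∀ K y s, P.In K y → (∀ Y, K.Hn 0 Y → (P.τ y).Hn 0 Y) →
    ∀ Y, K.Hn 0 Y → (P.τ (P.mv K s y)).Hn 0 Y
  amb_hi : ∀ K y s, (∀ Y, (P.τ y).Hn 0 Y → K.Hn 1 Y) →
    ∀ Y, (P.τ (P.mv K s y)).Hn 0 Y → K.Hn 1 Y
  U_mv : ∀ K y s A, (∀ Y, P.Dj Y → K.Hn 0 Y → D.T.hom A Y = 0) → (P.τ y).Un 0 A →
    (P.τ (P.mv K s y)).Un 0 A
  agree : ∀ K K' y s, P.In K y → P.In K' y → P.In K' (P.mv K s y) → P.mv K' s y = P.mv K s y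
  uniq : ∀ K y y', P.In K y → P.In K y' → P.w y = P.w y' →
    ∀ Y, P.Dj Y → (P.τ y).Hn 0 Y → (P.τ y').Hn 0 Y
  bot_eq : ∀ K y, P.In K y → (∀ s, P.Upw K y s) → ∀ Y, P.Dj Y → (P.τ y).Hn 0 Y → K.Hn 0 Y
  top_eq : ∀ K y, P.In K y → (∀ s, ¬ P.Upw K y s) → ∀ Y, P.Dj Y → K.Hn 1 Y → (P.τ y).Hn 0 Y
  sign : ∀ y p s (k : ℤ), (∀ Y, P.Dj Y → (P.τ p).Hn k Y → (P.τ y).Hn 0 Y) →
    (∀ Y, P.Dj Y → (P.τ y).Hn 0 Y → (P.τ p).Hn (k + 1) Y) → ∀ A, P.S y s A →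
    ((P.τ p).Hn k A ↔ (PosAt M (P.w p) (rt M (P.w y) s) ↔ Even k))
  dn_to : ∀ y g, ∃ y', P.w y' = g ∧ (∀ Y, (P.τ y).Hn (-1) Y → (P.τ y').Hn 0 Y) ∧
    (∀ Y, (P.τ y').Hn 0 Y → (P.τ y).Hn 0 Y) ∧
    Relation.ReflTransGen (fun a b => ∃ s, PosAt M (P.w y) (rt M (P.w a) s) ∧
      ¬ PosAt M g (rt M (P.w a) s) ∧ b = P.dn s a) y y'
  disc : Disc M

/-- job SD: sections -/
structure SD (P : Sys D R M) : Prop where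
  sec_in : ∀ K x y, P.In K x → P.Sec K x y → P.In K y
  sec_symm : ∀ K x y, P.In K x → P.Sec K x y → P.Sec K y x
  sec_ex : ∀ K x g, ∃ y, P.Sec K x y ∧ P.w y = g
  sec_inj : ∀ K x y y', P.In K x → P.Sec K x y → P.Sec K x y' → P.w y = P.w y' → y = y'
  sec_orb : ∀ K x y y' L, P.In K x → P.Sec K x y → P.Sec K x y' →
    (P.w y)⁻¹ * P.w y' ∈ WL M L → P.Orb L y y'
  down_sec : ∀ K x y, P.Down K x y → P.Sec K x y ∧ ∀ Y, (P.τ y).Hn 0 Y → (P.τ x).Hn 0 Y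
  up_sec : ∀ K x y, P.Up K x y → P.Sec K x y ∧ ∀ Y, (P.τ x).Hn 0 Y → (P.τ y).Hn 0 Y
  top : ∀ K y L, P.In K y → Finite (WL M L) → ∃ z, P.Sec K y z ∧ (P.w y)⁻¹ * P.w z ∈ WL M L ∧
    (∀ Y, P.WW z L Y → K.Mn 1 Y) ∧
    ∀ v, P.Sec K y v → (P.w y)⁻¹ * P.w v ∈ WL M L → P.Up K v z
  bot : ∀ K y L, P.In K y → Finite (WL M L) → ∃ z, P.Sec K y z ∧ (P.w y)⁻¹ * P.w z ∈ WL M L ∧
    (∀ Y, P.WW z L Y → K.Mn 0 Y) ∧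
    ∀ v, P.Sec K y v → (P.w y)⁻¹ * P.w v ∈ WL M L → P.Down K v z
  orient : ∀ K x, P.In K x →
    Orient M (fun g s => ∃ y, P.Sec K x y ∧ P.w y = g ∧ ¬ P.Upw K y s)

/-- job SE: convexity, termination, Harder-Narasimhan inequalities -/
structure SE (P : Sys D R M) : Prop where
  cvxH : ∀ K y₁ y₂ s Y, P.In K y₁ → P.In K y₂ → ¬ PosAt M (P.w y₂) (rt M (P.w y₁) s) →
    (P.τ y₁).Hn 0 Y → (P.τ y₂).Hn 0 Y → (P.τ (P.mv K s y₁)).Hn 0 Y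
  cvxU : ∀ K y₁ y₂ s A, P.In K y₁ → P.In K y₂ → ¬ PosAt M (P.w y₂) (rt M (P.w y₁) s) →
    (P.τ y₁).Un 1 A → (P.τ y₂).Un 1 A → (P.τ (P.mv K s y₁)).Un 1 A
  gal : ∀ K y₁ y₂ (Q : P.X → Prop), P.In K y₁ → P.Sec K y₁ y₂ → Q y₁ →
    (∀ a s, P.Sec K y₁ a → Q a → ¬ PosAt M (P.w y₂) (rt M (P.w a) s) → Q (P.mv K s a)) →
    Relation.ReflTransGen (fun a b => Q a ∧ Q b ∧ P.Sec K y₁ a ∧ ∃ s,
      ¬ PosAt M (P.w y₂) (rt M (P.w a) s) ∧ b = P.mv K s a) y₁ y₂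
  connU : ∀ K y₁ y₂ (ι : Type) (A : ι → D.Obj) (a : ℤ), P.In K y₁ → P.Sec K y₁ y₂ →
    (∀ t, (P.τ y₁).Un a (A t)) → (∀ t, (P.τ y₂).Un a (A t)) →
    P.Conn Set.univ (fun y => ∀ t, (P.τ y).Un a (A t)) y₁ y₂
  xi : ∀ K K' c y, P.In K c → P.In K' c → (∀ Y, P.Dj Y → K.Hn 0 Y → K'.Hn 0 Y) → P.Sec K c y →
    (∀ Y, P.Dj Y → K'.Hn 0 Y → (P.τ y).Hn 0 Y) → P.Sec K' c y
  down_le : ∀ K K' c b, P.In K c → P.In K' c → (∀ Y, P.Dj Y → K.Hn 0 Y → K'.Hn 0 Y) →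
    P.Down K' c b → P.Down K c b
  up_le : ∀ K K' c b, P.In K c → P.In K' c → (∀ Y, P.Dj Y → K.Hn 0 Y → K'.Hn 0 Y) →
    P.Up K c b → P.Up K' c b
  term_dn : ∀ K y p, P.In K y → (∀ Y, P.Dj Y → (P.τ p).Hn 0 Y → K.Hn 0 Y) →
    (∀ Y, P.Dj Y → (P.τ y).Hn 0 Y → (P.τ p).Hn 1 Y) → ∃ b, P.Down K y b ∧ ∀ s, P.Upw K b s
  term_up : ∀ K y p (k : ℤ), Even k → P.In K y →
    (∀ Y, P.Dj Y → K.Hn 1 Y → (P.τ p).Hn k Y) →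
    (∀ Y, P.Dj Y → (P.τ p).Hn (k - 1) Y → (P.τ y).Hn 0 Y) → ∃ b, P.Up K y b ∧ ∀ s, ¬ P.Upw K b s
  hn_quot : ∀ K y A N Q (θ : Fn J), P.In K y → (∀ Y, (P.τ y).Hn 0 Y → K.Hn 1 Y) ∨ P.Dj A →
    K.Mn 1 A → K.Mn 1 N → K.Mn 1 Q → P.Dj Q → P.Dj ((P.τ y).hi 1 A) → D.T.Ext N A Q →
    Ch M θ (P.w y) → θ (P.cE Q) ≤ θ (P.cE ((P.τ y).hi 1 A))
  hn_sub : ∀ K y y' Y (θ : Fn J), P.In K y → P.In K y' → P.Dj Y → K.Mn 1 Y → Ch M θ (P.w y) →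
    θ (P.cE ((P.τ y).lo 1 Y)) ≤ θ (P.cE ((P.τ y').lo 1 Y))

/-- a statement for all systems -/
def AllS (Q : ∀ {D : FD} {R : Ref D} {J : Type} [Fintype J] [DecidableEq J] {M : CoxeterMatrix J},
    Sys D R M → Prop) : Prop :=
  ∀ (D : FD) (R : Ref D) (J : Type) [Fintype J] [DecidableEq J] (M : CoxeterMatrix J)
    (P : Sys D R M), Q P

/-- a statement for all systems of connected type -/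
def AllC (Q : ∀ {D : FD} {R : Ref D} {J : Type} [Fintype J] [DecidableEq J] {M : CoxeterMatrix J},
    Sys D R M → Prop) : Prop :=
  ∀ (D : FD) (R : Ref D) (J : Type) [Fintype J] [DecidableEq J] (M : CoxeterMatrix J)
    (P : Sys D R M), ConnL M Set.univ → Q P

end Pool.Agent.HS
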