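import Pool.Agent.Lib.HS.StA

set_option autoImplicit false
set_option linter.unusedSectionVars false

/-! Statements, part B: the push step, the indefinite and the affine case, the induction. -/

namespace Pool.Agent.HS

open Pool.Agent.HT Pool.Agent.Lib.MP_6d85b4_al CoxeterSystem

variable {D : FD} {R : Ref D} {J : Type} [Fintype J] [DecidableEq J] {M : CoxeterMatrix J}

/-- all basic facts on Coxeter matrices -/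
structure CX (M : CoxeterMatrix J) : Prop where
  a : CA M
  b : CB M
  c : CC M
  fc : FinCo

/-- all basic facts on a system of connected type -/
structure BX (P : Sys D R M) : Prop where
  cx : CX M
  ta : TA D
  tb : TB D
  sa : SA P
  sb : SB P
  sc : SC P
  sd : SD P
  se : SE P
  conn : ConnL M Set.univ

/-- job PA: facts on the cuts `K_x` -/
structure PA (P : Sys D R M) : Prop where
  isCut : ∀ (X : P.Red) β x, X.Om β x → P.IsCut (X.K β x) x (X.O β)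
  inK : ∀ (X : P.Red) β x, X.Om β x → P.In (X.K β x) x
  O_stab : ∀ (X : P.Red) β, D.Stab (X.O β)
  O_perp : ∀ (X : P.Red) β Y, P.Dj Y →
    (D.Perp (X.O β) Y ↔ ∀ t F, D.T.hom (D.W F (D.T.sh β (R.X t))) Y = 0)
  om_mono : ∀ (X : P.Red) a b x, a ≤ b → X.Om a x → X.Om b x
  om_ex : ∀ (X : P.Red) x, ∃ β, X.Om β x
  adj_mono : ∀ (X : P.Red) a b, a ≤ b → X.Adj a → X.Adj b
  om_sx : ∀ (X : P.Red) β x y, X.Om β x → X.Sx β x y → X.Om β y ∧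
    (∀ Y, (X.K β x).Hn 0 Y → (P.τ y).Hn 0 Y) ∧ (∀ Y, (P.τ y).Hn 0 Y → (X.K β x).Hn 1 Y) ∧
    ∀ Y, P.Dj Y → (X.K β x).Hn 0 Y → (X.K β y).Hn 0 Y
  inner : ∀ (X : P.Red) β x t, X.Adj (β - 1) → X.Om β x →
    P.WW x Set.univ ((P.τ x).hi 1 (D.T.sh β (X.X t)))
  om_iff : ∀ (X : P.Red) β x, X.Adj (β - 1) → X.Om β x →
    (X.Om (β - 1) x ↔ ∀ Y, P.Dj Y → (P.τ x).Hn 0 Y → D.Perp (X.O β) Y)
  edge : ∀ (X : P.Red) β x s, X.Om β x → X.Om β (P.up s x) → X.Sx β x (P.up s x)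
  kp_ex : ∀ (X : P.Red) β x, X.Om β x → ∃ k, k ≤ β - 1 ∧ X.Kp β x k
  kp_nn : ∀ (X : P.Red) β x c k, X.Om β x → X.NN β x c → k + 1 ≤ β - 1 → X.Kp β x k →
    X.Kp β c (k + 1)
  kp_top : ∀ (X : P.Red) β x, X.Om β x → X.Kp β x (β - 1) → ∀ y, X.Sx β x y →
    (∀ Y, P.Dj Y → ((X.K β y).Hn 0 Y ↔ (X.K β x).Hn 0 Y)) ∧ ∀ z, X.Sx β x z → X.Sx β y z
  mm_conn : ∀ (X : P.Red) β x y y', X.Om β x → X.Sx β x y → X.Sx β x y' → X.Om (β - 1) y →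
    X.Om (β - 1) y' → P.Conn Set.univ (X.Om (β - 1)) y y'
  bot_om : ∀ (X : P.Red) β x b, X.Adj (β - 1) → X.Om β x → X.Sx β x b →
    (∀ s, P.Upw (X.K β x) b s) → X.Om (β - 1) b
  common : ∀ (X : P.Red) β x c p, X.Adj (β - 1) → X.Om β x → X.Sx β x c →
    (∀ Y, P.Dj Y → (P.τ p).Hn 0 Y → (X.K β c).Hn 0 Y) →
    (∀ Y, P.Dj Y → (P.τ c).Hn 0 Y → (P.τ p).Hn 1 Y) →
    ∃ b, X.Sx β x b ∧ X.Sx β c b ∧ X.Om (β - 1) b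
  quot : ∀ (X : P.Red) β x y t N Q, X.Adj (β - 1) → X.Om β x → X.Sx β x y → (P.τ y).Mn 0 N →
    (P.τ y).Mn 0 Q → D.T.Ext N ((P.τ y).hi 1 (D.T.sh β (X.X t))) Q → (X.K β x).Mn 1 Q
  low : ∀ (X : P.Red) β y t t' F (α i : ℤ), X.Adj (β - 1) → X.Om β y → i ≤ 1 → α + i < β →
    D.Perp P.Dj ((P.τ y).lo 1 (D.T.sh α (R.X t'))) →
    D.T.hom (D.W F ((P.τ y).hi 1 (D.T.sh β (X.X t))))
      (D.T.sh i ((P.τ y).hi 1 (D.T.sh α (R.X t')))) = 0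

/-- job PU: the push lemma and the passage to `Top` -/
structure PU (P : Sys D R M) : Prop where
  push : ∀ (X : P.Red) β DT, X.Adj (β - 1) → X.PD β DT → X.Push β
  top : (∀ (X : P.Red) β, 1 ≤ β → X.Adj (β - 1) → X.Push β) → P.Top
  fin : Finite M.Group → P.Top

/-- a nonzero antidominant vector with full support -/
def Big (M : CoxeterMatrix J) : Prop :=
  Nonempty J ∧ ∃ z : J → ℝ, (∀ s, 0 < z s) ∧ ∀ s, Bm M z (al s) ≤ 0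

/-- job NS: no shifts, and the base of the level induction -/
structure NS (P : Sys D R M) : Prop where
  ns : Big M → ∀ p c (k : ℤ), 2 ≤ k →
    ¬ ∀ Y, P.Dj Y → ((P.τ c).Hn 0 Y ↔ (P.τ p).Hn k Y)
  base : Big M → ∀ (X : P.Red) β x, 1 ≤ β → X.Adj (β - 1) → X.Om β x → X.Kp β x (β - 1) →
    (∀ y (α : ℤ), X.Sx β x y → α ≤ β - 2 →
      (∀ t, D.Perp P.Dj ((P.τ y).lo 1 (D.T.sh α (R.X t)))) →
      ∃ c, X.Sx β x c ∧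
        ∀ t, D.Perp P.Dj ((P.τ c).lo 0 ((P.τ y).hi 1 (D.T.sh α (R.X t))))) →
    ∃ y, X.Sx β x y ∧ X.Om (β - 1) y

/-- job MCa: the cone `M` -/
structure MCa (P : Sys D R M) : Prop where
  amb : ∀ K x A y, P.Tri K x A → P.Sec K x y →
    (∀ Y, K.Hn 0 Y → (P.τ y).Hn 0 Y) ∧ ∀ Y, (P.τ y).Hn 0 Y → K.Hn 1 Y
  hn : ∀ K x A y y' (θ : Fn J), P.Tri K x A → P.Sec K x y → P.Sec K x y' →
    Ch M θ (P.w y) → θ (P.cE ((P.τ y').hi 1 A)) ≤ θ (P.cE ((P.τ y).hi 1 A))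
  f_mem : ∀ K x A y, P.Tri K x A → P.Sec K x y →
    P.WW y Set.univ ((P.τ y).hi 1 A) ∧ K.Mn 1 ((P.τ y).hi 1 A) ∧ K.Mn 1 ((P.τ y).lo 1 A) ∧
      ∀ Y F, K.Hn 1 Y → D.T.hom (D.W F A) Y = 0 → D.T.hom (D.W F ((P.τ y).hi 1 A)) Y = 0
  ff_sub : ∀ K A N Y Q, P.FF K A Y → K.Mn 1 A → K.Mn 1 N → K.Mn 1 Q → P.Dj N →
    D.T.Ext N Y Q → P.FF K A N
  ahat : ∀ (X : P.Red) β x, X.Adj (β - 1) → X.Om β x → ∃ A, P.Tri (X.K β x) x A ∧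
    (∀ Y, (X.K β x).Hn 1 Y → P.Dj Y → ((∀ F, D.T.hom (D.W F A) Y = 0) ↔ D.Perp (X.O β) Y)) ∧
    ∀ y, X.Sx β x y →
      (∀ L, P.WW y L ((P.τ y).hi 1 A) ↔
        ∀ t, P.WW y L ((P.τ y).hi 1 (D.T.sh β (X.X t)))) ∧
      ∀ Y, (∀ t F, D.T.hom (D.W F ((P.τ y).hi 1 (D.T.sh β (X.X t)))) Y = 0) →
        ∀ F, D.T.hom (D.W F ((P.τ y).hi 1 A)) Y = 0

/-- job KL -/
def KL (P : Sys D R M) : Prop :=
  ∀ z, Ind M Set.univ z → Nonempty J → ∀ K x A, P.Tri K x A →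
    (∀ θ, P.MC K x A θ → θ = 0) →
    ∃ c, P.Sec K x c ∧ (∀ Y, P.FF K A Y → (P.τ c).Hn 0 Y) ∧
      ∀ Y, (∀ v, P.Sec K x v → (P.τ v).Hn 0 Y ∧
          ∀ F, D.T.hom (D.W F ((P.τ v).hi 1 A)) Y = 0 ∧
            D.T.hom (D.W F ((P.τ v).hi 1 A)) (D.T.sh 1 Y) = 0) →
        D.Perp P.Dj ((P.τ c).lo 0 Y)

/-- a chamber with minimal support, a component `L₁` of the support and a neighbour `u` -/
structure MinS (P : Sys D R M) (K : TS D) (x : P.X) (A : D.Obj) (y : P.X) (L L₁ : Set J) (u : J) :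
    Prop where
  sec : P.Sec K x y
  sub : L₁ ⊆ L
  conn : ConnL M L₁
  ne : L₁.Nonempty
  orth : ∀ s ∈ L₁, ∀ t ∈ L, t ∉ L₁ → M s t = 2
  not_mem : u ∉ L
  adj : ∃ s ∈ L₁, M s u ≠ 2
  supp : ∀ v, P.Sec K x v → (P.w y)⁻¹ * P.w v ∈ WL M L →
    P.WW v L ((P.τ v).hi 1 A) ∧ ∀ s ∈ L, rho M (P.w v)⁻¹ (P.cE ((P.τ v).hi 1 A)) s ≠ 0

/-- job MS1: existence of minimal data, the component is infinite -/
def MS1 (P : Sys D R M) : Prop :=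
  ∀ K x A, P.Tri K x A → (∃ θ, θ ≠ 0 ∧ P.MC K x A θ) →
    (∀ y, P.Sec K x y → (P.τ y).hi 1 A ≠ D.T.zero) →
    ∃ y L L₁ u, MinS P K x A y L L₁ u ∧ ((∃ δ, Aff M L₁ δ) ∨ ∃ z, Ind M L₁ z)

/-- job MS2: indefinite component -/
def MS2 (P : Sys D R M) : Prop :=
  ∀ K x A y L L₁ u z, P.Tri K x A → MinS P K x A y L L₁ u → Ind M L₁ z →
    ∀ Y, P.FF K A Y → 0 ≤ omF M (P.w y) u (P.cE Y)

/-- job MS3: affine component -/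
def MS3 (P : Sys D R M) : Prop :=
  ∀ K x A y L L₁ u δ, P.Tri K x A → MinS P K x A y L L₁ u → Aff M L₁ δ →
    ∀ Y, P.FF K A Y → 0 ≤ omF M (P.w y) u (P.cE Y)

/-- the statement MS -/
def MS (P : Sys D R M) : Prop :=
  ∀ K x A, P.Tri K x A → (∃ θ, θ ≠ 0 ∧ P.MC K x A θ) →
    (∀ y, P.Sec K x y → (P.τ y).hi 1 A ≠ D.T.zero) →
    ∃ θ, θ ≠ 0 ∧ P.MC K x A θ ∧ ∀ Y, P.FF K A Y → 0 ≤ θ (P.cE Y)

/-- job EE -/
def EE (P : Sys D R M) : Prop :=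
  ∀ z, Ind M Set.univ z → Nonempty J → ∀ (E : TS D) p c, P.In E c →
    (∀ Y, P.Dj Y → (P.τ p).Hn 0 Y → E.Hn 0 Y) → (∀ Y, P.Dj Y → E.Hn 0 Y → (P.τ p).Hn 1 Y) →
    ∃ b, (∀ Y, P.Dj Y → (P.τ b).Hn 0 Y → E.Hn 0 Y) ∧
      ∀ Y, P.Dj Y → (P.τ c).Hn 0 Y → (P.τ b).Hn 1 Y

/-- job CL: a common face -/
def CL (P : Sys D R M) : Prop :=
  ∀ z, Ind M Set.univ z → Nonempty J → ∀ (X : P.Red) β x c, X.Adj (β - 1) → X.Om β x →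
    X.Sx β x c → (∃ y, ∃ θ : Fn J, θ ≠ 0 ∧ X.Sx β x y ∧ Ch M θ (P.w y) ∧
      ∀ t, θ (P.cE ((P.τ y).hi 1 (D.T.sh β (X.X t)))) ≤ 0) →
    ∃ y, ∃ θ : Fn J, θ ≠ 0 ∧ X.Sx β x y ∧ X.Sx β c y ∧ Ch M θ (P.w y) ∧
      ∀ t, θ (P.cE ((P.τ y).hi 1 (D.T.sh β (X.X t)))) ≤ 0

/-- job IP: the push step in the indefinite case -/
def IndTop (P : Sys D R M) : Prop :=
  ∀ z, Ind M Set.univ z → Nonempty J → (∀ L, L ≠ Set.univ → P.TopL L) → P.Top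

/-- job AD: the categorical trichotomy for affine type -/
def ADc (P : Sys D R M) : Prop :=
  ∀ δ, Aff M Set.univ δ → Nonempty J → ∀ K x, P.In K x →
    (∃ y, P.Sec K x y ∧ ∀ s, ¬ P.Upw K y s) ∨ (∃ y, P.Sec K x y ∧ ∀ s, P.Upw K y s) ∨
      ∃ θ, P.AdT K δ θ

/-- job I1: ideal frames -/
structure I1 (P : Sys D R M) (δ : J → ℝ) (θ : Fn J) : Prop where
  far : ∀ y B, P.Tθ θ y B → ∀ ρ₀ : Fn J, Ch M ρ₀ (P.w y) → ∃ N : ℝ, ∀ t, N < t → ∀ y',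
    (∀ Y, (P.τ y).Hn (-1) Y → (P.τ y').Hn 0 Y) → (∀ Y, (P.τ y').Hn 0 Y → (P.τ y).Hn 0 Y) →
    Ch M (ρ₀ - t • θ) (P.w y') → (P.τ y').Un 1 B
  T_stab : ∀ y, D.Stab (P.Tθ θ y)
  E_iff : ∀ y Y, (P.Eθ θ y).Hn 0 Y ↔ (P.τ y).Hn 0 Y ∧ D.Perp (P.Tθ θ y) Y
  E_dec : ∀ y N, (P.Eθ θ y).Mn 0 N → ∃ f t, (P.τ y).Mn 0 f ∧ (P.Eθ θ y).Mn 0 f ∧ P.Tθ θ y t ∧
    D.T.Ext f N (D.T.sh (-1) t)
  E_h0 : ∀ y Y, R.ω (D.c ((P.Eθ θ y).h0 Y)) = R.ω (D.c ((P.τ y).h0 Y))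
  T_of : ∀ y B, (P.τ y).Mn 0 B → (P.Eθ θ y).Un 1 B → P.Tθ θ y B
  E_lo : ∀ y Y, (P.τ y).Hn (-1) Y → (P.Eθ θ y).Hn 0 Y
  E_in : ∀ y, P.In (P.Eθ θ y) y
  E_neg : ∀ y B, P.Dj B → (P.Eθ θ y).Mn 0 B → θ (P.cE B) ≤ 0
  W_mem : ∀ y B, P.Wθ θ y B → P.WW y Set.univ B
  W_serre : ∀ y A B C, P.Wθ θ y B → (P.Eθ θ y).Mn 0 A → (P.Eθ θ y).Mn 0 C → D.T.Ext A B C →
    P.Wθ θ y A ∧ P.Wθ θ y C
  E_cls : ∀ y y', P.Cls θ y y' → ∀ a Y, (P.Eθ θ y).Hn a Y ↔ (P.Eθ θ y').Hn a Y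
  dir : ∀ y y' s, P.In (P.Eθ θ y) y' →
    (θ (rt M (P.w y') s) < 0 → P.Upw (P.Eθ θ y) y' s) ∧
      (0 < θ (rt M (P.w y') s) → ¬ P.Upw (P.Eθ θ y) y' s) ∧
      (θ (rt M (P.w y') s) = 0 →
        (P.Upw (P.Eθ θ y) y' s ↔ PosAt M (P.w y) (rt M (P.w y') s)))
  S_W : ∀ y s A, θ (rt M (P.w y) s) = 0 → P.S y s A → P.Wθ θ y A
  E_up : ∀ y s Y, θ (rt M (P.w y) s) = 0 → ((P.Eθ θ (P.up s y)).H Y ↔
    D.Star (D.T.Cl {B | ∃ A, P.S y s A ∧ B = D.T.sh 1 A}) (P.Eθ θ y).H Y)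

/-- job I2: classes and sections, real and imaginary parts -/
structure I2 (P : Sys D R M) (δ : J → ℝ) (θ : Fn J) : Prop where
  cls_sec : ∀ y y₁ y₂, P.Sec (P.Eθ θ y) y y₁ → P.Cls θ y₁ y₂ → P.Sec (P.Eθ θ y) y y₂
  cls_of : ∀ y y₁ y₂, P.Sec (P.Eθ θ y) y y₁ → P.Sec (P.Eθ θ y) y y₂ →
    SameP M θ (P.w y₁) (P.w y₂) → P.Cls θ y₁ y₂
  cls_same : ∀ y y', P.Cls θ y y' → SameP M θ (P.w y) (P.w y')
  cls_ex : ∀ y g, SameP M θ (P.w y) g → ∃ y', P.Cls θ y y' ∧ P.w y' = g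
  cls_inj : ∀ y y', P.Cls θ y y' → P.w y = P.w y' → y = y'
  up_wd : ∀ y y' s s', P.Cls θ y y' → θ (rt M (P.w y) s) = 0 →
    rt M (P.w y) s = rt M (P.w y') s' →
    P.Cls θ (P.up s y) (P.up s' y') ∧ P.Cls θ (P.dn s y) (P.dn s' y') ∧
      ∀ A, P.S y s A ↔ P.S y' s' A
  dec : ∀ y B, P.Wθ θ y B → ∃ A C, D.T.Cl {A | P.Wall θ y A} A ∧ P.Imag θ δ y C ∧
    D.T.Ext A B C ∧ D.T.Ext C B A ∧ ∀ W, D.T.hom W B = D.T.hom W A + D.T.hom W C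

/-- the ideal system -/
structure Ideal (P : Sys D R M) (θ : Fn J) (y₀ : P.X) {J' : Type} [Fintype J'] [DecidableEq J']
    {M' : CoxeterMatrix J'} (P' : Sys D R M') (q : {y // P.Xθ θ y₀ y} → P'.X) : Prop where
  rk_lt : rk M' < rk M
  surj : Function.Surjective q
  τ_eq : ∀ y a Y, ((P'.τ (q y)).Un a Y ↔ (P.Eθ θ y.1).Un a Y)
  q_eq : ∀ y y', q y = q y' ↔ P.Cls θ y.1 y'.1
  wall : ∀ y r, ∃ y' y'' : {y // P.Xθ θ y₀ y}, ∃ s, q y' = q y ∧ θ (rt M (P.w y'.1) s) = 0 ∧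
    y''.1 = P.up s y'.1 ∧ q y'' = P'.up r (q y)
  D_iff : ∀ (y : {y // P.Xθ θ y₀ y}) Y, P'.Dj Y ↔
    D.T.Cl {B | ∃ A k, P.Wall θ y.1 A ∧ B = D.T.sh k A} Y

/-- job I3: construction of the ideal system -/
def I3 (P : Sys D R M) : Prop :=
  ∀ δ, Aff M Set.univ δ → Nonempty J → ∀ θ : Fn J, θ ≠ 0 → θ δ = 0 → ∀ y₀,
    ∃ (J' : Type) (_ : Fintype J') (_ : DecidableEq J') (M' : CoxeterMatrix J') (P' : Sys D R M')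
      (q : {y // P.Xθ θ y₀ y} → P'.X), Ideal P θ y₀ P' q

/-- the induction hypothesis for smaller rank -/
def SmallRk (D : FD) (R : Ref D) (k : ℕ) : Prop :=
  ∀ (J' : Type) [Fintype J'] [DecidableEq J'] (M' : CoxeterMatrix J') (P' : Sys D R M'),
    rk M' < k → P'.Top

/-- job ID -/
def IDs (P : Sys D R M) : Prop :=
  SmallRk D R (rk M) → ∀ δ, Aff M Set.univ δ → Nonempty J → ∀ θ : Fn J, θ ≠ 0 → θ δ = 0 →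
    ∀ (X : P.Red) β y₀, 1 ≤ β → X.Adj (β - 1) → X.Om β y₀ →
    (∀ t N Q, (P.τ y₀).Mn 0 N → (P.τ y₀).Mn 0 Q →
      D.T.Ext N ((P.τ y₀).hi 1 (D.T.sh β (X.X t))) Q → 0 ≤ θ (P.cE Q)) →
    (∃ y, P.Xθ θ y₀ y ∧ X.Om (β - 1) y) ∧
      ∀ y y', P.Xθ θ y₀ y → P.Xθ θ y₀ y' → X.Om (β - 1) y → X.Om (β - 1) y' →
        P.Conn Set.univ (X.Om (β - 1)) y y'

/-- job AC: compatibility of ideal directions -/
structure AC (P : Sys D R M) : Prop where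
  sec_X : ∀ δ K x θ y, P.In K x → P.AdT K δ θ → P.Sec K x y → P.Xθ θ x y
  no_top : ∀ δ K x θ y, Aff M Set.univ δ → P.In K x → P.AdT K δ θ → P.Sec K x y →
    ∃ s, P.Upw K y s
  no_bot : ∀ δ K x θ y, Aff M Set.univ δ → P.In K x → P.AdT K δ θ → P.Sec K x y →
    ∃ s, ¬ P.Upw K y s
  compat : ∀ δ K K' c θ θ', Aff M Set.univ δ → Nonempty J → P.In K c → P.In K' c →
    (∀ Y, P.Dj Y → K.Hn 0 Y → K'.Hn 0 Y) → P.AdT K δ θ → P.AdT K' δ θ' →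
    θ + θ' ≠ 0 ∧ ∀ y, P.Xθ (θ + θ') c y → P.Xθ θ c y ∧ P.Xθ θ' c y
  raise : ∀ δ, Aff M Set.univ δ → Nonempty J → ∀ (X : P.Red) β x y (α : ℤ), X.Adj (β - 1) →
    X.Om β x → X.Kp β x (β - 1) → X.Sx β x y → (∀ s, ¬ P.Upw (X.K β x) y s) → α ≤ β - 2 →
    ∀ y', X.Sx β x y' → ∀ t, D.Perp P.Dj ((P.τ y').lo 1 (D.T.sh α (R.X t))) →
      D.Perp P.Dj ((P.τ y).lo 0 ((P.τ y').hi 1 (D.T.sh α (R.X t))))

/-- job AP: the push step in the affine case -/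
def AffTop (P : Sys D R M) : Prop :=
  SmallRk D R (rk M) → ∀ δ, Aff M Set.univ δ → Nonempty J → P.Top

/-- job SUBS: subsystems -/
def SubS (P : Sys D R M) : Prop :=
  ∀ (L : Set J) [Fintype L], (∀ P' : Sys D R (subM M L), P'.Top) → P.TopL L

/-- job PROD: reducible types -/
def ProdS (P : Sys D R M) : Prop :=
  ∀ L₁ L₂ : Set J, L₁ ∪ L₂ = Set.univ → (∀ s ∈ L₁, ∀ t ∈ L₂, M s t = 2) →
    P.TopL L₁ → P.TopL L₂ → P.Top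

/-- the main theorem -/
def TopAll : Prop := AllS (fun P => P.Top)

end Pool.Agent.HS
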